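import Pool.Agent.Lib.MP_f53aaa_nt.Rough.Sets

/-!
Let `N_m = 8 d_m ^ 2 + 1`, where `d_m + b_m sqrt 8 = (3 + sqrt 8) ^ m`. For all large `M`, every
set `S` of primes up to `(log M) ^ (2 - δ)` which does not contain too many exceptional prime
factors of Fermat numbers is avoided by `M ^ (1 - δ)` of the numbers `N_m`, `m < M`.
-/

namespace Pool.Agent.Results.MP_f53aaa_nt.AvoidingPrimes

open Pool.Agent.Lib.MP_f53aaa_nt

open Classical in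
theorem result (δ : ℝ) (hδ : 0 < δ) : ∃ M₀ : ℕ, ∀ M : ℕ, M₀ ≤ M → ∀ S : Finset ℕ,
    (∀ p ∈ S, p.Prime ∧ (p : ℝ) ≤ (Real.log M) ^ (2 - δ)) →
    ∑ p ∈ S.filter (fun p => Exceptional p (idx p)), (2 : ℚ) / 2 ^ idx p < 1 →
    (M : ℝ) ^ (1 - δ) ≤ (((Finset.range M).filter (fun m => ∀ p ∈ S,
      ¬ p ∣ 8 * (pell m).1 ^ 2 + 1)).card : ℝ) :=
  Rough.sets δ hδ

end Pool.Agent.Results.MP_f53aaa_nt.AvoidingPrimes
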