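import Pool.Agent.Lib.MP_f53aaa_nt.TW.ALL

/-!
The numbers `N_m = 8 d_m ^ 2 + 1`, where `d_m + b_m sqrt 8 = (3 + sqrt 8) ^ m`: for arbitrarily large
`x` at least `(log x) ^ 2 / (2 ^ 22 (log log x) ^ 2)` primes `p ≤ x` divide terms of the sequence.
-/

set_option autoImplicit false

namespace Pool.Agent.Results.MP_f53aaa_nt.PrimeDivisors

/-- `pell m = (d_m, b_m)`, where `d_m + b_m * sqrt 8 = (3 + sqrt 8) ^ m`. -/
def pell : ℕ → ℕ × ℕ
  | 0 => (1, 0)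
  | m + 1 => (3 * (pell m).1 + 8 * (pell m).2, (pell m).1 + 3 * (pell m).2)

theorem pell_eq (m : ℕ) : pell m = Pool.Agent.Lib.MP_f53aaa_nt.pell m := by
  induction m with
  | zero => rfl
  | succ m ih => simp only [pell, Pool.Agent.Lib.MP_f53aaa_nt.pell, ih]

/-- For every `x₀` there is `x ≥ x₀` such that the number of the primes `p ≤ x` which divide
`8 d_m ^ 2 + 1` for some odd `m` is at least `(log x) ^ 2 / (2 ^ 22 (log log x) ^ 2)`. -/
theorem result (x₀ : ℝ) : ∃ x ≥ x₀, Real.log x ^ 2 / (2 ^ 22 * Real.log (Real.log x) ^ 2) ≤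
    (({p : ℕ | p.Prime ∧ (p : ℝ) ≤ x ∧ ∃ m, Odd m ∧ p ∣ 8 * (pell m).1 ^ 2 + 1}.ncard : ℕ) : ℝ) := by
  simp only [pell_eq]
  exact Pool.Agent.Lib.MP_f53aaa_nt.TW.ALLM.main x₀

end Pool.Agent.Results.MP_f53aaa_nt.PrimeDivisors
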