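import Pool.Agent.Lib.MP_f53aaa_nt.RSP.Main
import Pool.Agent.Lib.MP_926cc3_nt.RS.Exist

set_option autoImplicit false

open Filter Topology MeasureTheory ProbabilityTheory

namespace Pool.Agent.Results.MP_f53aaa_nt.RandomSieve

open Pool.Agent.Lib.MP_926cc3_nt.RS Pool.Agent.Lib.MP_f53aaa_nt.RSP

universe u

/-- The numbers `N_m = 8 d_m ^ 2 + 1 = 64 b_m ^ 2 + 9`, `d_m + b_m √8 = (3 + √8) ^ m`, in the sieve
of Eratosthenes that is exact up to `N` and random afterwards.
(1) The sieve in which every kept number strikes out its multiples keeps exactly the primes.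
(2) `8 d_m ^ 2 + 1 = 64 b_m ^ 2 + 9`.
(3) In the sieve in which a kept `m ≤ N` strikes out its multiples and a kept `m > N` strikes out
some further `n > m`, the kept numbers up to `N + 1` are the primes.
(4) Let `N` be such that some `N_m` has no prime factor `≤ N`.  Then these `m` have a density
`ρ > 0`, and if the sieve is run in which a kept `m ≤ N` strikes out its multiples and a kept
`m > N` strikes out each `n > m` with probability `1/m`, independently, then almost surely the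
number of `m ∈ [1, M]` with `N_m` kept is asymptotic to `c log M`,
`c = ρ / (2 log (3 + √8) ∏_{p ≤ N} (1 - 1/p))`.
(5) If every `N_m` has a prime factor `≤ N`, then no `N_m > N` is kept.
(6) The hypothesis of (4) holds for all `N < N_77`, a prime with 119 digits.
(7) Such events exist, on a single probability space for all `N`. -/
theorem result :
    (∀ n : ℕ, Kept (fun m n => m ∣ n) n ↔ n.Prime) ∧
    (∀ m : ℕ, cand m = 64 * (pellSeq m).2 ^ 2 + 9) ∧
    (∀ (N : ℕ) (Ω : Type u) (A : ℕ → ℕ → Set Ω) (ω : Ω) (n : ℕ), n ≤ N + 1 →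
      (n ∈ sieveSet N A ω ↔ n.Prime)) ∧
    (∀ N : ℕ, (∃ m, (primorial N).Coprime (cand m)) → ∃ ρ : ℝ, 0 < ρ ∧
      Tendsto (fun M : ℕ =>
        ({m : ℕ | 1 ≤ m ∧ m ≤ M ∧ (primorial N).Coprime (cand m)}.ncard : ℝ) / (M : ℝ))
        atTop (𝓝 ρ) ∧
      ∀ (Ω : Type u) [MeasurableSpace Ω] (μ : Measure Ω) [IsProbabilityMeasure μ]
        (A : ℕ → ℕ → Set Ω), (∀ m n, MeasurableSet (A m n)) →
        iIndepSet (fun q : ℕ × ℕ => A q.1 q.2) μ →
        (∀ m n, N < m → m < n → μ.real (A m n) = 1 / m) →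
        ∀ᵐ ω ∂μ, Tendsto (fun M : ℕ => (candCount (sieveSet N A ω) M : ℝ) / Real.log (M : ℝ))
          atTop (𝓝 (ρ / (2 * Real.log (3 + Real.sqrt 8) *
            ∏ p ∈ (Finset.range (N + 1)).filter Nat.Prime, (1 - 1 / (p : ℝ)))))) ∧
    (∀ N : ℕ, (¬ ∃ m, (primorial N).Coprime (cand m)) →
      ∀ (Ω : Type u) (A : ℕ → ℕ → Set Ω) (ω : Ω) (m : ℕ), cand m ∈ sieveSet N A ω →
        cand m ≤ N) ∧
    (∀ N : ℕ, N < cand 77 → ∃ m, (primorial N).Coprime (cand m)) ∧ (cand 77).Prime ∧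
    10 ^ 118 < cand 77 ∧
    (∃ (Ω : Type) (_ : MeasurableSpace Ω) (μ : Measure Ω) (A : ℕ → ℕ → Set Ω),
      IsProbabilityMeasure μ ∧ (∀ m n, MeasurableSet (A m n)) ∧
      iIndepSet (fun q : ℕ × ℕ => A q.1 q.2) μ ∧
      ∀ m n, 0 < m → m < n → μ.real (A m n) = 1 / m) := by
  refine ⟨kept_dvd, ?_, fun N Ω A ω n hn => kept_small N _ n hn, ?_, ?_, ?_, ?_, ?_, ?_⟩
  · intro m
    rw [cand_eq, pellSeq_eq, Pool.Agent.Lib.MP_f53aaa_nt.val_eq]
  · intro N hN
    have hN' : ∃ m, (primorial N).Coprime (Pool.Agent.Lib.MP_f53aaa_nt.val m) := by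
      obtain ⟨m, hm⟩ := hN
      exact ⟨m, by rw [← cand_eq]; exact hm⟩
    obtain ⟨ρ, hρ, h1, h2⟩ := pell_det N hN'
    refine ⟨ρ, hρ, ?_, ?_⟩
    · simp only [copCount_eq]
      exact h1
    · intro Ω _ μ _ A hA hI hP
      have h3 := pell_ae (μ := μ) hA hI hP hρ h2
      rw [Pool.Agent.Lib.MP_3efbeb_nt.RST.theta_eq] at h3
      exact h3
  · intro N hN Ω A ω m hm
    letI : MeasurableSpace Ω := ⊤
    rw [cand_eq] at hm ⊢
    exact none_kept (fun k hk => hN ⟨k, by rw [cand_eq]; exact hk⟩) hm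
  · intro N hN
    rw [cand_eq] at hN
    obtain ⟨m, hm⟩ := hyp77 N hN
    exact ⟨m, by rw [cand_eq]; exact hm⟩
  · rw [cand_eq]
    exact val77_prime
  · rw [cand_eq]
    decide +kernel
  · obtain ⟨Ω, m0, μ, B, hμ, hB, hI, hp⟩ := Exist.events (ℕ × ℕ) (fun q => 1 / (q.1 : ℝ))
      (fun q => by positivity) (fun q => by
        rcases Nat.eq_zero_or_pos q.1 with h | h
        · rw [h]; norm_num
        · rw [div_le_one (by exact_mod_cast h)]; exact_mod_cast h)
    refine ⟨Ω, m0, μ, fun m n => B (m, n), hμ, fun m n => hB _, hI, fun m n _ _ => hp (m, n)⟩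

end Pool.Agent.Results.MP_f53aaa_nt.RandomSieve
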