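import Pool.Agent.Lib.MP_f53aaa_nt.Prim.Few

/-!
The numbers `N_m = 8 d_m ^ 2 + 1`, where `d_m + b_m sqrt 8 = (3 + sqrt 8) ^ m`, share little with the
earlier ones. The least common multiple of the first `M` of them is, on a logarithmic scale and with
a power saving, their product; for all but `O(sqrt M)` of the `m < M` the part of `N_m` which divides
the least common multiple of the earlier terms is less than `N_m ^ ε`, so that all but `O(sqrt M)` of
them have a prime power factor which divides no earlier term; and all but `O(M ^ (3/4))` of them have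
a prime factor of their own.
-/

namespace Pool.Agent.Results.MP_f53aaa_nt.SharedFactors

open Pool.Agent.Lib.MP_f53aaa_nt

/-- `N m = 8 d_m ^ 2 + 1`. -/
def N (m : ℕ) : ℕ := 8 * (pell m).1 ^ 2 + 1

/-- the least common multiple of `N 0, ..., N (M - 1)` -/
def lcmBelow (M : ℕ) : ℕ := (Finset.range M).lcm N

open Classical in
/-- (1) the size of the least common multiple; (2) for at most `(4100 / ε) sqrt M` of the `m < M`
the greatest common divisor of `N m` and of the least common multiple of the earlier terms is at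
least `(N m) ^ ε`; (3) for at most `4100 sqrt M` of the `m < M` there is no prime power which divides
`N m` and no earlier term; and there is a set `I` of at least `M - 35 M ^ (3/4)` of the `m < M` and a
choice of a prime factor `p m` of `N m` for the `m ∈ I` such that these prime factors are pairwise
different. -/
theorem result :
    (∀ M : ℕ, 1 ≤ M → |Real.log (lcmBelow M) - (M : ℝ) ^ 2 * Real.log (3 + Real.sqrt 8)| ≤
      2000 * (M * Real.sqrt M)) ∧
    (∀ ε : ℝ, 0 < ε → ε ≤ 1 → ∀ M : ℕ,
      (((Finset.range M).filter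
        (fun m => (N m : ℝ) ^ ε ≤ (Nat.gcd (N m) (lcmBelow m) : ℕ))).card : ℝ) ≤
        4100 / ε * Real.sqrt M) ∧
    (∀ M : ℕ,
      (((Finset.range M).filter (fun m => ¬ ∃ p j : ℕ, p.Prime ∧ p ^ j ∣ N m ∧
        ∀ k < m, ¬ p ^ j ∣ N k)).card : ℝ) ≤ 4100 * Real.sqrt M ∧
      ∃ (I : Finset ℕ) (p : ℕ → ℕ), I ⊆ Finset.range M ∧
        (M : ℝ) - 35 * (M : ℝ) ^ (3 / 4 : ℝ) ≤ (I.card : ℝ) ∧
        (∀ m ∈ I, (p m).Prime ∧ p m ∣ N m) ∧ Set.InjOn p I) :=
  ⟨Prim.main1, Prim.bad_le, fun M => ⟨Prim.bad_new M, Prim.own_prime M⟩⟩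

end Pool.Agent.Results.MP_f53aaa_nt.SharedFactors
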